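import Pool.Agent.H78.FMR.Main

/-!
# Inner anisotropic groups of type A over division algebras are not of finite Morley rank

`D` is a central division algebra over an infinite field `k` whose degree is not divisible by the
characteristic, `A` is the centralizer in `D` of a subfield `F`, of odd prime degree `p` over `F`,
and `p = 3` or `A` contains a unit `x` with a conjugate `y x y⁻¹ ≠ x` commuting with `x` (for
instance `A` is a cyclic algebra).  Then no subgroup `S` of `Dˣ / center` containing all `m`-th
powers (`m` prime to the characteristic) is a group of finite Morley rank, in any first-order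
language.
-/

set_option autoImplicit false

namespace Pool.Agent.Results.MP_77b141_lc.AnisotropicDivisionAlgebras

open Pool.Agent.H78.FMR

universe u v w

theorem result {k F A : Type*} {D : Type w} [Field k] [Infinite k] [Field F] [Algebra k F]
    [DivisionRing A] [Algebra k A] [Algebra F A] [IsScalarTower k F A] [Algebra.IsCentral F A]
    [DivisionRing D] [Algebra k D] [Algebra.IsCentral k D] [FiniteDimensional k D]
    (hdeg : (Module.finrank k D : k) ≠ 0)
    (ι : A →ₐ[k] D)
    (hι : ∀ d : D, (∀ f : F, d * ι (algebraMap F A f) = ι (algebraMap F A f) * d) → d ∈ ι.range)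
    {p : ℕ} (hp : p.Prime) (hodd : p ≠ 2) (hdim : Module.finrank F A = p ^ 2)
    (hxy : p = 3 ∨ ∃ x y : Aˣ, ¬ Commute y x ∧ Commute x (y * x * y⁻¹))
    (S : Subgroup (Dˣ ⧸ Subgroup.center Dˣ)) {m : ℕ} (hm : (m : k) ≠ 0) (hS : ∀ g, g ^ m ∈ S)
    (L : FirstOrder.Language.{u, v}) [L.Structure S] : ¬ IsRanked L S :=
  not_isRanked ι hι hp hodd hdim hxy hdeg hm hS L

end Pool.Agent.Results.MP_77b141_lc.AnisotropicDivisionAlgebras
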